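import Mathlib
import Pool.Agent.Helper92.PO.Stmts

set_option autoImplicit false

namespace Pool.Agent.Helper92.PO

private theorem fin_wd_pos (n : ℕ) : 0 < wd n := by
  unfold wd
  omega

private theorem fin_ext_congr {n σ : ℕ} {f g : ℕ → ℕ → Lab}
    (h : ∀ k < KK n, ∀ u < wd n, f k u = g k u) : ext n σ f = ext n σ g := by
  funext a
  unfold ext
  by_cases hc : 0 ≤ a.1 + σ + 1 ∧ a.1 + σ + 1 < (JJ n * wd n : ℕ) ∧ 0 ≤ a.2 + n + 1 ∧
      a.2 + n + 1 < (LL n : ℕ)
  · rw [if_pos hc, if_pos hc]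
    obtain ⟨h1, h2, h3, h4⟩ := hc
    obtain ⟨X, hX⟩ : ∃ X : ℕ, X = (a.1 + σ + 1).toNat := ⟨_, rfl⟩
    obtain ⟨Y, hY⟩ : ∃ Y : ℕ, Y = (a.2 + n + 1).toNat := ⟨_, rfl⟩
    rw [← hX, ← hY]
    have hX' : X < JJ n * wd n := by omega
    have hY' : Y < LL n := by omega
    apply h
    · have h5 : X / wd n < JJ n := Nat.div_lt_of_lt_mul (by rw [mul_comm]; exact hX')
      unfold KK
      calc X / wd n * LL n + Y < X / wd n * LL n + LL n := by omega
        _ = (X / wd n + 1) * LL n := by ring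
        _ ≤ JJ n * LL n := Nat.mul_le_mul_right _ h5
    · exact Nat.mod_lt _ (fin_wd_pos n)
  · rw [if_neg hc, if_neg hc]

private theorem fin_cnt_congr {n : ℕ} {f g : ℕ → ℕ → Lab}
    (h : ∀ k < KK n, ∀ u < wd n, f k u = g k u) {u : ℕ} (hu : u < wd n) : cnt n f u = cnt n g u := by
  unfold cnt
  congr 1
  apply Finset.filter_congr
  intro k hk
  rw [h k (Finset.mem_range.1 hk) u hu]

private theorem fin_sem_congr {n σ : ℕ} (hσ : σ < wd n) {f g : ℕ → ℕ → Lab}
    (h : ∀ k < KK n, ∀ u < wd n, f k u = g k u) (hf : Sem n σ f) : Sem n σ g := by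
  have hw := fin_wd_pos n
  obtain ⟨⟨h1, h2, h3, h4⟩, h5, h6, h7⟩ := hf
  refine ⟨⟨?_, ?_, ?_, ?_⟩, ?_, ?_, ?_⟩
  · intro k hk u hu
    rw [← h k hk u hu]
    exact h1 k hk u hu
  · intro k hk u hu
    rw [← h k (by omega) u hu, ← h (k + 1) hk u hu]
    exact h2 k hk u hu
  · intro k hk u hu
    rw [← h k hk u (by omega), ← h k hk (u + 1) hu]
    exact h3 k hk u hu
  · intro k hk
    rw [← h k (by omega) (wd n - 1) (by omega), ← h (k + LL n) hk 0 hw]
    exact h4 k hk
  · have e : ∑ u ∈ Finset.range (wd n), cnt n g u = ∑ u ∈ Finset.range (wd n), cnt n f u :=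
      Finset.sum_congr rfl fun u hu => (fin_cnt_congr h (Finset.mem_range.1 hu)).symm
    rw [e]
    exact h5
  · rw [← fin_cnt_congr h (show wd n - 1 < wd n by omega)]
    exact h6
  · intro u hu
    rw [← fin_cnt_congr h (show u < wd n by omega)]
    exact h7 u hu

private theorem fin_zero_mem (n : ℕ) : ((0, 0) : Lab) ∈ labs n := by
  unfold labs
  exact List.mem_cons_self

theorem st_FIN (hPTV : ST_PTV) (hVTP : ST_VTP) (hREX : ST_REX) (hLBE : ST_LBE) (hLBU : ST_LBU) :
    ST_FIN := by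
  intro n σ hσ
  have hw := fin_wd_pos n
  symm
  -- the list of a polyomino
  have hc : ∀ P : Finset Cell, ∃ c : Cell → Lab, P ∈ Anch n → Val n P c := by
    intro P
    by_cases h : P ∈ Anch n
    · obtain ⟨c, hc⟩ := hLBE n P h
      exact ⟨c, fun _ => hc⟩
    · exact ⟨fun _ => (0, 0), fun h' => absurd h' h⟩
  choose c hc using hc
  obtain ⟨V, hV⟩ : ∃ V : (Cell → Lab) → List Lab,
      V = fun c => (List.range (KK n * wd n)).map fun i => res n σ c (i / wd n) (i % wd n) :=
    ⟨_, rfl⟩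
  have hVlen : ∀ c, (V c).length = KK n * wd n := by
    intro c
    rw [hV]
    simp
  have hVfun : ∀ c, ∀ k < KK n, ∀ u < wd n, fun2 n (V c) k u = res n σ c k u := by
    intro c k hk u hu
    unfold fun2
    have hlt : k * wd n + u < KK n * wd n := by
      calc k * wd n + u < k * wd n + wd n := by omega
        _ = (k + 1) * wd n := by ring
        _ ≤ KK n * wd n := Nat.mul_le_mul_right _ hk
    have e1 : (k * wd n + u) / wd n = k := by
      rw [mul_comm, Nat.mul_add_div hw, Nat.div_eq_of_lt hu, add_zero]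
    have e2 : (k * wd n + u) % wd n = u := by
      rw [mul_comm, Nat.mul_add_mod, Nat.mod_eq_of_lt hu]
    rw [List.getD_eq_getElem _ _ (by rw [hVlen]; exact hlt)]
    simp only [hV, List.getElem_map, List.getElem_range]
    rw [e1, e2]
  refine Set.ncard_congr (fun P _ => V (c P)) ?_ ?_ ?_
  · rintro P ⟨hP, hPl⟩
    have hval := hc P hP
    refine ⟨?_, hVlen _, ?_⟩
    · intro v hv
      rw [hV] at hv
      obtain ⟨i, _, rfl⟩ := List.mem_map.1 hv
      exact hval.2.1 _
    · exact fin_sem_congr hσ (fun k hk u hu => (hVfun (c P) k hk u hu).symm)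
        (hPTV n σ P (c P) hσ hP hPl hval)
  · rintro P P' ⟨hP, _⟩ ⟨hP', _⟩ h
    have hval := hc P hP
    have hval' := hc P' hP'
    have h1 : ∀ k < KK n, ∀ u < wd n, res n σ (c P) k u = res n σ (c P') k u := by
      intro k hk u hu
      rw [← hVfun (c P) k hk u hu, ← hVfun (c P') k hk u hu]
      exact congrArg (fun vs => fun2 n vs k u) h
    have h2 : c P = c P' := by
      rw [← hREX.2 n σ P (c P) hσ hP hval, ← hREX.2 n σ P' (c P') hσ hP' hval']
      exact fin_ext_congr h1
    ext a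
    rw [hval.1 a, hval'.1 a, h2]
  · rintro vs ⟨hvs, hlen, hsem⟩
    have hlab : ∀ k u, fun2 n vs k u ∈ labs n := by
      intro k u
      unfold fun2
      by_cases hlt : k * wd n + u < vs.length
      · rw [List.getD_eq_getElem _ _ hlt]
        exact hvs _ (List.getElem_mem hlt)
      · rw [List.getD_eq_default _ _ (by omega)]
        exact fin_zero_mem n
    obtain ⟨P, hP, hPl, hval⟩ := hVTP n σ (fun2 n vs) hσ hlab hsem
    refine ⟨P, ⟨hP, hPl⟩, ?_⟩
    have h1 : c P = ext n σ (fun2 n vs) := hLBU n P _ _ (hc P hP) hval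
    show V (c P) = vs
    apply List.ext_getElem
    · rw [hVlen, hlen]
    · intro i hi hi'
      rw [hVlen] at hi
      simp only [hV, List.getElem_map, List.getElem_range]
      have hk : i / wd n < KK n := Nat.div_lt_of_lt_mul (by rw [mul_comm]; exact hi)
      have hu : i % wd n < wd n := Nat.mod_lt _ hw
      rw [h1, hREX.1 n σ (fun2 n vs) (i / wd n) hk (i % wd n) hu]
      unfold fun2
      have e : i / wd n * wd n + i % wd n = i := by
        have := Nat.div_add_mod i (wd n)
        rw [mul_comm] at this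
        exact this
      rw [e, List.getD_eq_getElem _ _ hi']

end Pool.Agent.Helper92.PO
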