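import Mathlib
import Pool.Agent.Helper92.PO.Stmts

set_option autoImplicit false

namespace Pool.Agent.Helper92.PO

open Function Pool.Agent.Helper52.Poly

private theorem plook_fold (l : List (Sta × ℕ)) (st : Sta) :
    look l st = l.reverse.foldl (fun u p => if p.1 = st then p.2 else u) 0 := by
  induction l with
  | nil => rfl
  | cons p t ih =>
    rw [List.reverse_cons, List.foldl_append, ← ih]
    rfl

theorem st_PLOOK (hPEQ : ST_PEQ) (hPINJ : ST_PINJ) : ST_PLOOK := by
  intro γ _ t s ht hs
  obtain ⟨Q, hQ⟩ := ht.reverse.size_le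
  have hstep : PF (fun x : (γ × ℕ) × (Sta × ℕ) => if x.2.1 = s x.1.1 then x.2.2 else x.1.2) := by
    refine PF.ite ?_ (PF.snd' PF.snd) (PF.snd' PF.fst)
    exact hPEQ ((γ × ℕ) × (Sta × ℕ)) Sta hPINJ.2 (fun x => x.2.1) (fun x => s x.1.1)
      (PF.fst' PF.snd) (hs.comp (PF.fst' PF.fst))
  have key := PF.foldlEnv (init := fun _ : γ => (0 : ℕ)) (lst := fun c => (t c).reverse)
    (step := fun x : (γ × ℕ) × (Sta × ℕ) => if x.2.1 = s x.1.1 then x.2.2 else x.1.2)
    (PF.const _) ht.reverse hstep
    (fun c u => u = 0 ∨ ∃ p ∈ (t c).reverse, u = p.2) (1 + Q)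
    (fun c => Or.inl rfl)
    (fun c u x hu hx => by
      by_cases h : x.1 = s c
      · right
        refine ⟨x, hx, ?_⟩
        show (if x.1 = s c then x.2 else u) = x.2
        rw [if_pos h]
      · show (if x.1 = s c then x.2 else u) = 0 ∨
          ∃ p ∈ (t c).reverse, (if x.1 = s c then x.2 else u) = p.2
        rw [if_neg h]
        exact hu)
    (fun c u hu => by
      simp only [Polynomial.eval_add, Polynomial.eval_one]
      rcases hu with h | ⟨p, hp, h⟩
      · rw [h]
        have h1 : sz (0 : ℕ) = 1 := rfl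
        omega
      · have h1 := sz_mem_le hp
        have h2 : sz p = 1 + sz p.1 + sz p.2 := sz_pair p.1 p.2
        have h3 := hQ c
        rw [h]
        omega)
  refine key.congr (fun c => ?_)
  congr 1
  exact plook_fold (t c) (s c)

end Pool.Agent.Helper92.PO
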